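import Mathlib

/-! # MP_2541dc_co: the symmetric Zarankiewicz function: definitions -/

set_option autoImplicit false

namespace ZarSym

/-- `S` contains no `t × t` rectangle (any `t` rows, any `t` columns). -/
def Free (t : ℕ) {n : ℕ} (S : Finset (Fin n × Fin n)) : Prop :=
  ∀ A B : Finset (Fin n), A.card = t → B.card = t → ¬ (A ×ˢ B ⊆ S)

/-- `z(n; t)`: the largest number of ones in an `n × n` matrix without a `t × t` submatrix of
ones. -/
noncomputable def z (n t : ℕ) : ℕ :=
  sSup {m : ℕ | ∃ S : Finset (Fin n × Fin n), S.card = m ∧ Free t S}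

/-- The ratio `z(n; t) / n ^ (2 - 1 / t)`. -/
noncomputable def ratio (t n : ℕ) : ℝ := (z n t : ℝ) / (n : ℝ) ^ ((2 : ℝ) - 1 / (t : ℝ))

end ZarSym
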