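import Pool.Agent.Lib.MP_2541dc_coH58.Defs

/-! # MP_2541dc_co: the integer inequalities -/

set_option autoImplicit false

namespace ZarSym

theorem bddAbove_z (n t : ℕ) :
    BddAbove {m : ℕ | ∃ S : Finset (Fin n × Fin n), S.card = m ∧ Free t S} := by
  refine ⟨n * n, ?_⟩
  rintro m ⟨S, rfl, -⟩
  refine (Finset.card_le_univ S).trans ?_
  simp

theorem card_le_z {n t : ℕ} {S : Finset (Fin n × Fin n)} (h : Free t S) : S.card ≤ z n t :=
  le_csSup (bddAbove_z n t) ⟨S, rfl, h⟩

theorem exists_max {t : ℕ} (ht : 1 ≤ t) (n : ℕ) :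
    ∃ S : Finset (Fin n × Fin n), S.card = z n t ∧ Free t S := by
  refine Nat.sSup_mem ?_ (bddAbove_z n t)
  refine ⟨0, ∅, rfl, fun A B hA hB h => ?_⟩
  have h1 : (A ×ˢ B).card = 0 := by
    rw [Finset.subset_empty.1 h]; rfl
  rw [Finset.card_product, hA, hB] at h1
  have : 0 < t * t := by positivity
  omega

theorem one_le_z {t : ℕ} (ht : 2 ≤ t) {n : ℕ} (hn : 1 ≤ n) : 1 ≤ z n t := by
  have i0 : Fin n := ⟨0, hn⟩
  have h : Free t ({(i0, i0)} : Finset (Fin n × Fin n)) := fun A B hA hB h => by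
    have h1 := Finset.card_le_card h
    rw [Finset.card_product, hA, hB, Finset.card_singleton] at h1
    nlinarith
  exact card_le_z h

theorem z_succ_mul (t : ℕ) (ht : 1 ≤ t) (n : ℕ) : z (n + 1) t * n ^ 2 ≤ z n t * (n + 1) ^ 2 := by
  obtain ⟨S, hS, hF⟩ := exists_max ht (n + 1)
  have key : ∀ p q : Fin (n + 1), (S.filter fun s => s.1 ≠ p ∧ s.2 ≠ q).card ≤ z n t := by
    intro p q
    let S' : Finset (Fin n × Fin n) :=
      Finset.univ.filter fun s => (p.succAbove s.1, q.succAbove s.2) ∈ S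
    have h1 : Free t S' := by
      intro A B hA hB h
      refine hF (A.map p.succAboveEmb) (B.map q.succAboveEmb)
        (by simpa using hA) (by simpa using hB) ?_
      rintro ⟨x, y⟩ hxy
      rw [Finset.mem_product, Finset.mem_map, Finset.mem_map] at hxy
      obtain ⟨⟨i, hi, rfl⟩, j, hj, rfl⟩ := hxy
      have h2 := h (Finset.mk_mem_product hi hj)
      simpa [S'] using h2
    refine le_trans ?_ (card_le_z h1)
    have h3 : (S.filter fun s => s.1 ≠ p ∧ s.2 ≠ q) ⊆
        S'.image fun s => (p.succAbove s.1, q.succAbove s.2) := by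
      rintro ⟨x, y⟩ hxy
      rw [Finset.mem_filter] at hxy
      obtain ⟨h4, h5, h6⟩ := hxy
      obtain ⟨i, hi⟩ := Fin.exists_succAbove_eq h5
      obtain ⟨j, hj⟩ := Fin.exists_succAbove_eq h6
      rw [Finset.mem_image]
      refine ⟨(i, j), ?_, ?_⟩
      · simp only [S', Finset.mem_filter, Finset.mem_univ, true_and]
        rw [hi, hj]; exact h4
      · simp only [Prod.mk.injEq]
        exact ⟨hi, hj⟩
    exact (Finset.card_le_card h3).trans Finset.card_image_le
  have hsum : ∑ p : Fin (n + 1), ∑ q : Fin (n + 1),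
      (S.filter fun s => s.1 ≠ p ∧ s.2 ≠ q).card = S.card * n ^ 2 := by
    have h1 : ∀ p q : Fin (n + 1), (S.filter fun s => s.1 ≠ p ∧ s.2 ≠ q).card =
        ∑ s ∈ S, (if s.1 ≠ p then 1 else 0) * (if s.2 ≠ q then 1 else 0) := by
      intro p q
      rw [Finset.card_filter]
      refine Finset.sum_congr rfl fun s _ => ?_
      by_cases h1 : s.1 = p <;> by_cases h2 : s.2 = q <;> simp [h1, h2]
    have h2 : ∀ x : Fin (n + 1), (∑ p : Fin (n + 1), if x ≠ p then 1 else 0) = n := by
      intro x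
      rw [← Finset.card_filter, Finset.filter_ne]
      simp
    simp_rw [h1]
    have h3 : ∀ p : Fin (n + 1), ∑ q : Fin (n + 1), ∑ s ∈ S,
        (if s.1 ≠ p then 1 else 0) * (if s.2 ≠ q then 1 else 0) =
        ∑ s ∈ S, (if s.1 ≠ p then 1 else 0) * n := by
      intro p
      rw [Finset.sum_comm]
      refine Finset.sum_congr rfl fun s _ => ?_
      rw [← Finset.mul_sum, h2]
    rw [Finset.sum_congr rfl fun p _ => h3 p, Finset.sum_comm]
    have h4 : ∀ s ∈ S, ∑ p : Fin (n + 1), (if s.1 ≠ p then 1 else 0) * n = n ^ 2 := by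
      intro s _
      rw [← Finset.sum_mul, h2]; ring
    rw [Finset.sum_congr rfl h4]
    simp
  calc z (n + 1) t * n ^ 2 = ∑ p : Fin (n + 1), ∑ q : Fin (n + 1),
      (S.filter fun s => s.1 ≠ p ∧ s.2 ≠ q).card := by rw [hsum, hS]
    _ ≤ ∑ p : Fin (n + 1), ∑ q : Fin (n + 1), z n t :=
      Finset.sum_le_sum fun p _ => Finset.sum_le_sum fun q _ => key p q
    _ = z n t * (n + 1) ^ 2 := by simp; ring

theorem z_le_succ (t : ℕ) (ht : 1 ≤ t) (n : ℕ) : z n t ≤ z (n + 1) t := by
  obtain ⟨S, hS, hF⟩ := exists_max ht n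
  let S' : Finset (Fin (n + 1) × Fin (n + 1)) := S.image fun s => (s.1.castSucc, s.2.castSucc)
  have h1 : S'.card = S.card := by
    refine Finset.card_image_of_injective _ ?_
    rintro ⟨a, b⟩ ⟨c, d⟩ h
    simpa using h
  rw [← hS, ← h1]
  refine card_le_z fun A B hA hB h => ?_
  have hAne : A.Nonempty := by rw [← Finset.card_pos]; omega
  have hBne : B.Nonempty := by rw [← Finset.card_pos]; omega
  obtain ⟨a0, ha0⟩ := hAne
  obtain ⟨b0, hb0⟩ := hBne
  have hpre : ∀ x ∈ A, ∀ y ∈ B, ∃ i j, (i, j) ∈ S ∧ Fin.castSucc i = x ∧ Fin.castSucc j = y := by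
    intro x hx y hy
    have h2 := h (Finset.mk_mem_product hx hy)
    simp only [S', Finset.mem_image, Prod.exists, Prod.mk.injEq] at h2
    exact h2
  let A' : Finset (Fin n) := Finset.univ.filter fun i => i.castSucc ∈ A
  let B' : Finset (Fin n) := Finset.univ.filter fun i => i.castSucc ∈ B
  have hA' : A'.card = t := by
    rw [← hA, ← Finset.card_image_of_injective A' (Fin.castSucc_injective n)]
    congr 1
    ext x
    simp only [A', Finset.mem_image, Finset.mem_filter, Finset.mem_univ, true_and]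
    constructor
    · rintro ⟨i, hi, rfl⟩; exact hi
    · intro hx
      obtain ⟨i, j, -, hi, -⟩ := hpre x hx b0 hb0
      exact ⟨i, by rw [hi]; exact hx, hi⟩
  have hB' : B'.card = t := by
    rw [← hB, ← Finset.card_image_of_injective B' (Fin.castSucc_injective n)]
    congr 1
    ext x
    simp only [B', Finset.mem_image, Finset.mem_filter, Finset.mem_univ, true_and]
    constructor
    · rintro ⟨i, hi, rfl⟩; exact hi
    · intro hx
      obtain ⟨i, j, -, -, hj⟩ := hpre a0 ha0 x hx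
      exact ⟨j, by rw [hj]; exact hx, hj⟩
  refine hF A' B' hA' hB' ?_
  rintro ⟨i, j⟩ hij
  simp only [A', B', Finset.mem_product, Finset.mem_filter, Finset.mem_univ, true_and] at hij
  obtain ⟨i', j', h3, h4, h5⟩ := hpre _ hij.1 _ hij.2
  rw [Fin.castSucc_inj] at h4 h5
  rw [← h4, ← h5]
  exact h3

theorem z_mono {t : ℕ} (ht : 1 ≤ t) {m n : ℕ} (h : m ≤ n) : z m t ≤ z n t := by
  induction n, h using Nat.le_induction with
  | base => exact le_rfl
  | succ n _ ih => exact ih.trans (z_le_succ t ht n)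

theorem z_density {t : ℕ} (ht : 1 ≤ t) {m n : ℕ} (hm : 1 ≤ m) (h : m ≤ n) :
    z n t * m ^ 2 ≤ z m t * n ^ 2 := by
  induction n, h using Nat.le_induction with
  | base => exact le_rfl
  | succ n hn ih =>
    have h1 := z_succ_mul t ht n
    have hn2 : 0 < n ^ 2 := by have : 0 < n := by omega
                               positivity
    refine Nat.le_of_mul_le_mul_right (c := n ^ 2) ?_ hn2
    calc z (n + 1) t * m ^ 2 * n ^ 2 = (z (n + 1) t * n ^ 2) * m ^ 2 := by ring
      _ ≤ (z n t * (n + 1) ^ 2) * m ^ 2 := Nat.mul_le_mul_right _ h1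
      _ = (z n t * m ^ 2) * (n + 1) ^ 2 := by ring
      _ ≤ (z m t * n ^ 2) * (n + 1) ^ 2 := Nat.mul_le_mul_right _ ih
      _ = z m t * (n + 1) ^ 2 * n ^ 2 := by ring

end ZarSym
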