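import Pool.Agent.Lib.MP_2541dc_coH58.Fin

/-! # MP_2541dc_co: the ratio varies slowly -/

set_option autoImplicit false

namespace ZarSym

open Filter Topology

theorem ratio_nonneg (t n : ℕ) : 0 ≤ ratio t n := by
  unfold ratio
  positivity

theorem expo_nonneg {t : ℕ} (ht : 1 ≤ t) : (0 : ℝ) ≤ 2 - 1 / (t : ℝ) := by
  have h1 : (1 : ℝ) ≤ t := by exact_mod_cast ht
  have h2 : 1 / (t : ℝ) ≤ 1 := by
    rw [div_le_one (by linarith)]; exact h1
  linarith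

theorem ratio_lower {t : ℕ} (ht : 1 ≤ t) {m n : ℕ} (hm : 1 ≤ m) (h : m ≤ n) :
    ((m : ℝ) / n) ^ ((2 : ℝ) - 1 / t) * ratio t m ≤ ratio t n := by
  have hm0 : (0 : ℝ) < m := by exact_mod_cast hm
  have hn0 : (0 : ℝ) < n := by exact_mod_cast (lt_of_lt_of_le hm h)
  have hz : (z m t : ℝ) ≤ z n t := by exact_mod_cast z_mono ht h
  unfold ratio
  rw [Real.div_rpow hm0.le hn0.le]
  have hme : (0 : ℝ) < (m : ℝ) ^ ((2 : ℝ) - 1 / t) := Real.rpow_pos_of_pos hm0 _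
  have hne : (0 : ℝ) < (n : ℝ) ^ ((2 : ℝ) - 1 / t) := Real.rpow_pos_of_pos hn0 _
  have h1 : (m : ℝ) ^ ((2 : ℝ) - 1 / t) / (n : ℝ) ^ ((2 : ℝ) - 1 / t) *
      ((z m t : ℝ) / (m : ℝ) ^ ((2 : ℝ) - 1 / t)) = z m t / (n : ℝ) ^ ((2 : ℝ) - 1 / t) := by
    field_simp
  rw [h1]
  exact div_le_div_of_nonneg_right hz hne.le

theorem ratio_upper {t : ℕ} (ht : 1 ≤ t) {m n : ℕ} (hm : 1 ≤ m) (h : m ≤ n) :
    ratio t n ≤ ((n : ℝ) / m) ^ (1 / (t : ℝ)) * ratio t m := by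
  have hm0 : (0 : ℝ) < m := by exact_mod_cast hm
  have hn0 : (0 : ℝ) < n := by exact_mod_cast (lt_of_lt_of_le hm h)
  have hz : (z n t : ℝ) * m ^ 2 ≤ z m t * n ^ 2 := by exact_mod_cast z_density ht hm h
  unfold ratio
  have e1 : ∀ x : ℝ, 0 < x → x ^ ((2 : ℝ) - 1 / t) = x ^ 2 / x ^ (1 / (t : ℝ)) := fun x hx => by
    rw [Real.rpow_sub hx, Real.rpow_two]
  rw [e1 _ hn0, e1 _ hm0, Real.div_rpow hn0.le hm0.le]
  have hme : (0 : ℝ) < (m : ℝ) ^ (1 / (t : ℝ)) := Real.rpow_pos_of_pos hm0 _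
  have hne : (0 : ℝ) < (n : ℝ) ^ (1 / (t : ℝ)) := Real.rpow_pos_of_pos hn0 _
  have h1 : (z n t : ℝ) / ((n : ℝ) ^ 2 / (n : ℝ) ^ (1 / (t : ℝ))) =
      (z n t : ℝ) / (n : ℝ) ^ 2 * (n : ℝ) ^ (1 / (t : ℝ)) := by
    field_simp
  have h2 : (n : ℝ) ^ (1 / (t : ℝ)) / (m : ℝ) ^ (1 / (t : ℝ)) *
      ((z m t : ℝ) / ((m : ℝ) ^ 2 / (m : ℝ) ^ (1 / (t : ℝ)))) =
      (z m t : ℝ) / (m : ℝ) ^ 2 * (n : ℝ) ^ (1 / (t : ℝ)) := by
    field_simp
  rw [h1, h2]
  refine mul_le_mul_of_nonneg_right ?_ hne.le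
  rw [div_le_div_iff₀ (by positivity) (by positivity)]
  exact hz

/-- One step of the ratio. -/
theorem ratio_step {t : ℕ} (ht : 1 ≤ t) {n : ℕ} (hn : 1 ≤ n) :
    ratio t (n + 1) ≤ (1 + 1 / (n : ℝ)) ^ (1 / (t : ℝ)) * ratio t n := by
  have h := ratio_upper ht hn (Nat.le_succ n)
  have hn0 : (n : ℝ) ≠ 0 := by positivity
  have h1 : (((n + 1 : ℕ) : ℝ) / n) = 1 + 1 / (n : ℝ) := by
    push_cast; field_simp
  rwa [h1] at h

theorem cluster {t : ℕ} (ht : 1 ≤ t) {x y c : ℝ} (hx : MapClusterPt x atTop (ratio t))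
    (hy : MapClusterPt y atTop (ratio t)) (hxc : x ≤ c) (hcy : c ≤ y) :
    MapClusterPt c atTop (ratio t) := by
  rcases hxc.eq_or_lt with rfl | hxc
  · exact hx
  rcases hcy.eq_or_lt with rfl | hcy
  · exact hy
  rw [mapClusterPt_iff_frequently] at hx hy ⊢
  have hx' := hx (Set.Iio c) (Iio_mem_nhds hxc)
  have hy' := hy (Set.Ioi c) (Ioi_mem_nhds hcy)
  rw [frequently_atTop] at hx' hy'
  -- crossings
  have hcross : ∀ N, ∃ k, N ≤ k ∧ ratio t k ≤ c ∧ c < ratio t (k + 1) := by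
    intro N
    by_contra hcon
    push Not at hcon
    obtain ⟨n, hn, hnc⟩ := hx' N
    have hall : ∀ k, n ≤ k → ratio t k ≤ c := by
      intro k hk
      induction k, hk using Nat.le_induction with
      | base => exact le_of_lt hnc
      | succ k hk ih => exact hcon k (by omega) ih
    obtain ⟨k, hk, hkc⟩ := hy' n
    exact absurd (hall k hk) (not_le.2 hkc)
  intro s hs
  obtain ⟨ε, hε, hball⟩ := Metric.mem_nhds_iff.1 hs
  have hlim : Tendsto (fun n : ℕ => (1 + 1 / (n : ℝ)) ^ (1 / (t : ℝ)) * c) atTop (𝓝 c) := by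
    have h1 : Tendsto (fun n : ℕ => (1 + 1 / (n : ℝ))) atTop (𝓝 (1 + 0)) :=
      tendsto_const_nhds.add tendsto_one_div_atTop_nhds_zero_nat
    rw [add_zero] at h1
    have h2 : Tendsto (fun n : ℕ => (1 + 1 / (n : ℝ)) ^ (1 / (t : ℝ))) atTop
        (𝓝 ((1 : ℝ) ^ (1 / (t : ℝ)))) :=
      h1.rpow_const (Or.inl one_ne_zero)
    rw [Real.one_rpow] at h2
    simpa using h2.mul_const c
  have hev : ∀ᶠ n : ℕ in atTop, (1 + 1 / (n : ℝ)) ^ (1 / (t : ℝ)) * c < c + ε :=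
    hlim.eventually (Iio_mem_nhds (by linarith))
  obtain ⟨N0, hN0⟩ := eventually_atTop.1 hev
  rw [frequently_atTop]
  intro N
  obtain ⟨k, hk, h1, h2⟩ := hcross (max (max N N0) 1)
  have hkN : N ≤ k := le_trans (le_trans (le_max_left _ _) (le_max_left _ _)) hk
  have hkN0 : N0 ≤ k := le_trans (le_trans (le_max_right _ _) (le_max_left _ _)) hk
  have hk1 : 1 ≤ k := le_trans (le_max_right _ _) hk
  refine ⟨k + 1, by omega, hball ?_⟩
  have h3 := ratio_step ht hk1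
  have h4 : (1 + 1 / (k : ℝ)) ^ (1 / (t : ℝ)) * ratio t k ≤
      (1 + 1 / (k : ℝ)) ^ (1 / (t : ℝ)) * c :=
    mul_le_mul_of_nonneg_left h1 (by positivity)
  have h5 := hN0 k hkN0
  rw [Metric.mem_ball, Real.dist_eq, abs_lt]
  constructor <;> linarith

theorem strictMono_ratio_aux {u : ℕ → ℕ} (hu : StrictMono u) :
    ∃ k : ℕ → ℕ, Tendsto k atTop atTop ∧ ∀ n, u 0 ≤ n → u (k n) ≤ n ∧ n < u (k n + 1) := by
  refine ⟨fun n => Nat.findGreatest (fun k => u k ≤ n) n, ?_, fun n hn => ⟨?_, ?_⟩⟩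
  · rw [tendsto_atTop]
    intro b
    filter_upwards [eventually_ge_atTop (u b)] with n hn
    exact Nat.le_findGreatest (le_trans (hu.id_le b) hn) hn
  · exact Nat.findGreatest_spec (P := fun k => u k ≤ n) (Nat.zero_le n) hn
  · by_contra hcon
    push Not at hcon
    have h1 : Nat.findGreatest (fun k => u k ≤ n) n + 1 ≤ n :=
      le_trans (hu.id_le _) hcon
    have h2 := Nat.le_findGreatest (P := fun k => u k ≤ n) h1 hcon
    omega

theorem convergence {t : ℕ} (ht : 1 ≤ t) {u : ℕ → ℕ} (hu : StrictMono u)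
    (h1 : Tendsto (fun k => (u (k + 1) : ℝ) / u k) atTop (𝓝 1)) {c : ℝ}
    (h2 : Tendsto (fun k => ratio t (u k)) atTop (𝓝 c)) : Tendsto (ratio t) atTop (𝓝 c) := by
  obtain ⟨k, hk, hkn⟩ := strictMono_ratio_aux hu
  have hup : Tendsto (fun j => ((u (j + 1) : ℝ) / u j) ^ (1 / (t : ℝ)) * ratio t (u j)) atTop
      (𝓝 c) := by
    have h3 := (h1.rpow_const (p := 1 / (t : ℝ)) (Or.inl one_ne_zero)).mul h2
    simpa using h3
  have hlo : Tendsto (fun j => ((u (j + 1) : ℝ) / u j)⁻¹ ^ ((2 : ℝ) - 1 / t) * ratio t (u j))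
      atTop (𝓝 c) := by
    have h3 := ((h1.inv₀ one_ne_zero).rpow_const (p := (2 : ℝ) - 1 / t)
      (Or.inl (inv_ne_zero one_ne_zero))).mul h2
    simpa using h3
  refine tendsto_of_tendsto_of_tendsto_of_le_of_le' (hlo.comp hk) (hup.comp hk) ?_ ?_
  · filter_upwards [eventually_ge_atTop (u 0), hk.eventually_ge_atTop 1] with n hn hk1
    obtain ⟨h3, h4⟩ := hkn n hn
    have hpos : 1 ≤ u (k n) := le_trans hk1 (hu.id_le _)
    have hp : (0 : ℝ) < u (k n) := by exact_mod_cast hpos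
    have hn0 : (0 : ℝ) < n := by exact_mod_cast lt_of_lt_of_le hpos h3
    refine le_trans ?_ (ratio_lower ht hpos h3)
    refine mul_le_mul_of_nonneg_right ?_ (ratio_nonneg _ _)
    refine Real.rpow_le_rpow (by positivity) ?_ (expo_nonneg ht)
    rw [inv_div]
    refine div_le_div_of_nonneg_left hp.le hn0 ?_
    exact_mod_cast h4.le
  · filter_upwards [eventually_ge_atTop (u 0), hk.eventually_ge_atTop 1] with n hn hk1
    obtain ⟨h3, h4⟩ := hkn n hn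
    have hpos : 1 ≤ u (k n) := le_trans hk1 (hu.id_le _)
    have hp : (0 : ℝ) < u (k n) := by exact_mod_cast hpos
    refine le_trans (ratio_upper ht hpos h3) ?_
    refine mul_le_mul_of_nonneg_right ?_ (ratio_nonneg _ _)
    refine Real.rpow_le_rpow (by positivity) ?_ (by positivity)
    refine div_le_div_of_nonneg_right ?_ hp.le
    exact_mod_cast h4.le

theorem lower_bound {t : ℕ} (ht : 2 ≤ t) {u : ℕ → ℕ} (hu : StrictMono u) {C c : ℝ}
    (hC : ∀ k, (u (k + 1) : ℝ) ≤ C * u k) (hc : 0 < c) (h2 : ∀ k, c ≤ ratio t (u k)) :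
    ∃ c' : ℝ, 0 < c' ∧ ∀ n, 1 ≤ n → c' < ratio t n := by
  have ht1 : 1 ≤ t := by omega
  obtain ⟨k, hk, hkn⟩ := strictMono_ratio_aux hu
  have hu1 : (0 : ℝ) < u 1 := by
    have : 1 ≤ u 1 := hu.id_le 1
    exact_mod_cast this
  have hCpos : 0 < C := by
    have h3 := hC 1
    have h4 : (0 : ℝ) < u 2 := by
      have : 2 ≤ u 2 := hu.id_le 2
      have : 0 < u 2 := by omega
      exact_mod_cast this
    by_contra hcon
    push Not at hcon
    have : C * (u 1 : ℝ) ≤ 0 := mul_nonpos_of_nonpos_of_nonneg hcon hu1.le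
    norm_num at h3
    linarith
  have he := expo_nonneg ht1
  set e : ℝ := (2 : ℝ) - 1 / t with hedef
  have hA : 0 < C⁻¹ ^ e * c := by positivity
  have hB : 0 < ((u 1 : ℝ) ^ e)⁻¹ := by positivity
  refine ⟨min (C⁻¹ ^ e * c) (((u 1 : ℝ) ^ e)⁻¹) / 2, by positivity, fun n hn => ?_⟩
  have hmin : 0 < min (C⁻¹ ^ e * c) (((u 1 : ℝ) ^ e)⁻¹) := lt_min hA hB
  refine lt_of_lt_of_le (half_lt_self hmin) ?_
  have hn0 : (0 : ℝ) < n := by exact_mod_cast hn
  rcases lt_or_ge n (u 1) with h3 | h3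
  · refine (min_le_right _ _).trans ?_
    unfold ratio
    rw [← hedef, le_div_iff₀ (by positivity)]
    have hz : (1 : ℝ) ≤ z n t := by exact_mod_cast one_le_z ht hn
    refine le_trans ?_ hz
    rw [inv_mul_le_iff₀ (by positivity), mul_one]
    refine Real.rpow_le_rpow hn0.le ?_ he
    exact_mod_cast h3.le
  · refine (min_le_left _ _).trans ?_
    have h0 : u 0 ≤ n := le_trans (hu.monotone (Nat.zero_le 1)) h3
    obtain ⟨h4, h5⟩ := hkn n h0
    have hpos : 1 ≤ u (k n) := by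
      by_contra hcon
      have hk0 : k n = 0 := by
        by_contra hne
        have := hu.id_le (k n)
        simp only [id] at this
        omega
      rw [hk0] at h5
      simp at h5
      omega
    have hp : (0 : ℝ) < u (k n) := by exact_mod_cast hpos
    refine le_trans ?_ (ratio_lower ht1 hpos h4)
    rw [← hedef]
    refine mul_le_mul ?_ (h2 _) hc.le (by positivity)
    refine Real.rpow_le_rpow (by positivity) ?_ he
    rw [le_div_iff₀ hn0, inv_mul_le_iff₀ hCpos]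
    refine le_trans ?_ (hC (k n))
    exact_mod_cast h5.le

theorem main (t : ℕ) (ht : 2 ≤ t) :
    (∀ m n : ℕ, 1 ≤ m → m ≤ n →
      ((m : ℝ) / n) ^ ((2 : ℝ) - 1 / t) * ratio t m ≤ ratio t n ∧
      ratio t n ≤ ((n : ℝ) / m) ^ (1 / (t : ℝ)) * ratio t m) ∧
    (∀ x y c : ℝ, MapClusterPt x atTop (ratio t) → MapClusterPt y atTop (ratio t) →
      x ≤ c → c ≤ y → MapClusterPt c atTop (ratio t)) ∧
    ∀ u : ℕ → ℕ, StrictMono u →
      (∀ c : ℝ, Tendsto (fun k => (u (k + 1) : ℝ) / u k) atTop (𝓝 1) →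
        Tendsto (fun k => ratio t (u k)) atTop (𝓝 c) → Tendsto (ratio t) atTop (𝓝 c)) ∧
      ∀ C c : ℝ, (∀ k, (u (k + 1) : ℝ) ≤ C * u k) → 0 < c → (∀ k, c ≤ ratio t (u k)) →
        ∃ c' : ℝ, 0 < c' ∧ ∀ n, 1 ≤ n → c' < ratio t n :=
  have ht1 : 1 ≤ t := by omega
  ⟨fun _ _ hm h => ⟨ratio_lower ht1 hm h, ratio_upper ht1 hm h⟩,
    fun _ _ _ hx hy hxc hcy => cluster ht1 hx hy hxc hcy,
    fun _ hu => ⟨fun _ h1 h2 => convergence ht1 hu h1 h2,
      fun _ _ hC hc h2 => lower_bound ht hu hC hc h2⟩⟩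

end ZarSym
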