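import Pool.Agent.Lib.MP_2541dc_coH58.Main

/-! # MP_2541dc_co: convergence of the mean value gives convergence -/

set_option autoImplicit false

namespace ZarSym

open Filter Topology

theorem block_tendsto {f : ℕ → ℝ} {c : ℝ}
    (h : Tendsto (fun N : ℕ => (∑ n ∈ Finset.Icc 1 N, f n) / (N : ℝ)) atTop (𝓝 c)) {q : ℕ}
    (hq : 1 ≤ q) :
    Tendsto (fun j : ℕ => (∑ n ∈ Finset.Ioc (q * j) ((q + 1) * j), f n) / (j : ℝ)) atTop
      (𝓝 c) := by
  have hIcc : ∀ N, Finset.Icc 1 N = Finset.Ioc 0 N := fun N => by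
    ext x; simp only [Finset.mem_Icc, Finset.mem_Ioc]; omega
  simp_rw [hIcc] at h
  have t1 : Tendsto (fun j : ℕ => (q + 1) * j) atTop atTop :=
    tendsto_atTop_mono (fun j => Nat.le_mul_of_pos_left j (Nat.succ_pos q)) tendsto_id
  have t2 : Tendsto (fun j : ℕ => q * j) atTop atTop :=
    tendsto_atTop_mono (fun j => Nat.le_mul_of_pos_left j hq) tendsto_id
  have h1 := (h.comp t1).const_mul ((q : ℝ) + 1)
  have h2 := (h.comp t2).const_mul (q : ℝ)
  have h3 := h1.sub h2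
  have hc : ((q : ℝ) + 1) * c - q * c = c := by ring
  rw [hc] at h3
  refine h3.congr' ?_
  filter_upwards [eventually_ge_atTop 1] with j hj
  have hj0 : (j : ℝ) ≠ 0 := by positivity
  have hq0 : (q : ℝ) ≠ 0 := by positivity
  have hq1 : (q : ℝ) + 1 ≠ 0 := by positivity
  simp only [Function.comp]
  rw [← Finset.sum_Ioc_consecutive f (Nat.zero_le (q * j))
    (Nat.mul_le_mul_right j (Nat.le_succ q))]
  push_cast
  field_simp
  ring

/-- The ratio at `q j` and the mean over the block `(q j, (q + 1) j]`. -/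
theorem block_bounds {t : ℕ} (ht : 1 ≤ t) {q j : ℕ} (hq : 1 ≤ q) (hj : 1 ≤ j) :
    (∑ n ∈ Finset.Ioc (q * j) ((q + 1) * j), ratio t n) / (j : ℝ) ≤
        (1 + 1 / (q : ℝ)) ^ (1 / (t : ℝ)) * ratio t (q * j) ∧
      ((1 + 1 / (q : ℝ))⁻¹) ^ ((2 : ℝ) - 1 / t) * ratio t (q * j) ≤
        (∑ n ∈ Finset.Ioc (q * j) ((q + 1) * j), ratio t n) / (j : ℝ) := by
  have hj0 : (0 : ℝ) < j := by exact_mod_cast hj
  have hq0 : (0 : ℝ) < q := by exact_mod_cast hq
  have hqj : 1 ≤ q * j := Nat.mul_pos hq hj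
  have hqj0 : (0 : ℝ) < ((q * j : ℕ) : ℝ) := by exact_mod_cast hqj
  have hcard : (Finset.Ioc (q * j) ((q + 1) * j)).card = j := by
    rw [Nat.card_Ioc]
    have : (q + 1) * j = q * j + j := by ring
    omega
  have hlam : ∀ n ∈ Finset.Ioc (q * j) ((q + 1) * j), (n : ℝ) / ((q * j : ℕ) : ℝ) ≤
      1 + 1 / (q : ℝ) := by
    intro n hn
    rw [Finset.mem_Ioc] at hn
    have h1 : (n : ℝ) ≤ ((q : ℝ) + 1) * j := by exact_mod_cast hn.2
    rw [div_le_iff₀ hqj0]
    refine h1.trans (le_of_eq ?_)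
    push_cast
    field_simp
  constructor
  · rw [div_le_iff₀ hj0]
    calc (∑ n ∈ Finset.Ioc (q * j) ((q + 1) * j), ratio t n)
        ≤ ∑ _n ∈ Finset.Ioc (q * j) ((q + 1) * j),
          (1 + 1 / (q : ℝ)) ^ (1 / (t : ℝ)) * ratio t (q * j) := by
          refine Finset.sum_le_sum fun n hn => ?_
          have h1 := hlam n hn
          rw [Finset.mem_Ioc] at hn
          refine (ratio_upper ht hqj hn.1.le).trans ?_
          exact mul_le_mul_of_nonneg_right (Real.rpow_le_rpow (by positivity) h1 (by positivity))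
            (ratio_nonneg _ _)
      _ = (1 + 1 / (q : ℝ)) ^ (1 / (t : ℝ)) * ratio t (q * j) * j := by
          rw [Finset.sum_const, hcard, nsmul_eq_mul]; ring
  · rw [le_div_iff₀ hj0]
    calc ((1 + 1 / (q : ℝ))⁻¹) ^ ((2 : ℝ) - 1 / t) * ratio t (q * j) * j
        = ∑ _n ∈ Finset.Ioc (q * j) ((q + 1) * j),
          ((1 + 1 / (q : ℝ))⁻¹) ^ ((2 : ℝ) - 1 / t) * ratio t (q * j) := by
          rw [Finset.sum_const, hcard, nsmul_eq_mul]; ring
      _ ≤ _ := by
          refine Finset.sum_le_sum fun n hn => ?_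
          have h1 := hlam n hn
          rw [Finset.mem_Ioc] at hn
          refine le_trans ?_ (ratio_lower ht hqj hn.1.le)
          refine mul_le_mul_of_nonneg_right (Real.rpow_le_rpow (by positivity) ?_
            (expo_nonneg ht)) (ratio_nonneg _ _)
          have hn0 : (0 : ℝ) < n := by
            have : 0 < n := by omega
            exact_mod_cast this
          have h2 := inv_anti₀ (by positivity) h1
          rwa [inv_div] at h2

theorem div_bounds {q N : ℕ} (hq : 1 ≤ q) (hN : q ≤ N) :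
    (N : ℝ) / ((q * (N / q) : ℕ) : ℝ) ≤ 1 + 1 / ((N / q : ℕ) : ℝ) := by
  have hj : 1 ≤ N / q := (Nat.one_le_div_iff hq).2 hN
  have hj0 : (0 : ℝ) < ((N / q : ℕ) : ℝ) := by exact_mod_cast hj
  have hq0 : (0 : ℝ) < q := by exact_mod_cast hq
  have h1 : N ≤ q * (N / q) + q := by
    have := Nat.div_add_mod N q
    have := Nat.mod_lt N hq
    omega
  have h2 : (N : ℝ) ≤ q * ((N / q : ℕ) : ℝ) + q := by exact_mod_cast h1
  push_cast
  rw [div_le_iff₀ (by positivity)]
  refine h2.trans (le_of_eq ?_)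
  field_simp

theorem mean_convergence {t : ℕ} (ht : 1 ≤ t) {c : ℝ}
    (h : Tendsto (fun N : ℕ => (∑ n ∈ Finset.Icc 1 N, ratio t n) / (N : ℝ)) atTop (𝓝 c)) :
    Tendsto (ratio t) atTop (𝓝 c) := by
  have hq1 : Tendsto (fun q : ℕ => (1 + 1 / (q : ℝ))) atTop (𝓝 1) := by
    have h1 : Tendsto (fun n : ℕ => (1 + 1 / (n : ℝ))) atTop (𝓝 (1 + 0)) :=
      tendsto_const_nhds.add tendsto_one_div_atTop_nhds_zero_nat
    rwa [add_zero] at h1
  have hdiv : ∀ q : ℕ, 1 ≤ q → Tendsto (fun N : ℕ => N / q) atTop atTop := fun q hq =>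
    tendsto_atTop.2 fun b => by
      filter_upwards [eventually_ge_atTop (b * q)] with N hN
      exact (Nat.le_div_iff_mul_le hq).2 hN
  set e : ℝ := (2 : ℝ) - 1 / t with he
  have he0 : 0 ≤ e := expo_nonneg ht
  refine tendsto_order.2 ⟨fun b hb => ?_, fun b hb => ?_⟩
  · -- lower bound
    have h1 : Tendsto (fun q : ℕ => ((1 + 1 / (q : ℝ)) ^ (1 / (t : ℝ)))⁻¹ * c) atTop
        (𝓝 c) := by
      have h2 := ((hq1.rpow_const (p := 1 / (t : ℝ)) (Or.inl one_ne_zero)).inv₀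
        (by rw [Real.one_rpow]; exact one_ne_zero)).mul_const c
      simpa using h2
    obtain ⟨q, hqb, hq⟩ := ((h1.eventually (Ioi_mem_nhds hb)).and
      (eventually_ge_atTop 1)).exists
    have hB := block_tendsto h hq
    have h3 : Tendsto (fun j : ℕ => ((1 + 1 / (j : ℝ))⁻¹) ^ e *
        (((1 + 1 / (q : ℝ)) ^ (1 / (t : ℝ)))⁻¹ *
        ((∑ n ∈ Finset.Ioc (q * j) ((q + 1) * j), ratio t n) / (j : ℝ)))) atTop
        (𝓝 (((1 + 1 / (q : ℝ)) ^ (1 / (t : ℝ)))⁻¹ * c)) := by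
      have h4 := ((hq1.inv₀ one_ne_zero).rpow_const (p := e)
        (Or.inl (inv_ne_zero one_ne_zero))).mul
        (hB.const_mul (((1 + 1 / (q : ℝ)) ^ (1 / (t : ℝ)))⁻¹))
      simpa using h4
    have h5 := (h3.comp (hdiv q hq)).eventually (Ioi_mem_nhds hqb)
    filter_upwards [h5, eventually_ge_atTop q] with N hN hNq
    refine lt_of_lt_of_le hN ?_
    simp only [Function.comp]
    have hj : 1 ≤ N / q := (Nat.one_le_div_iff hq).2 hNq
    obtain ⟨hb1, -⟩ := block_bounds ht hq hj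
    have hqj : 1 ≤ q * (N / q) := Nat.mul_pos hq hj
    have hle : q * (N / q) ≤ N := Nat.mul_div_le N q
    have hN0 : (0 : ℝ) < N := by
      have : 0 < N := by omega
      exact_mod_cast this
    have hqj0 : (0 : ℝ) < ((q * (N / q) : ℕ) : ℝ) := by exact_mod_cast hqj
    refine le_trans ?_ (ratio_lower ht hqj hle)
    refine mul_le_mul (Real.rpow_le_rpow (by positivity) ?_ he0) ?_ ?_ (by positivity)
    · have h6 := inv_anti₀ (by positivity) (div_bounds hq hNq)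
      rwa [inv_div] at h6
    · rw [inv_mul_le_iff₀ (by positivity)]
      exact hb1
    · exact mul_nonneg (by positivity)
        (div_nonneg (Finset.sum_nonneg fun n _ => ratio_nonneg _ _) (by positivity))
  · -- upper bound
    have h1 : Tendsto (fun q : ℕ => (((1 + 1 / (q : ℝ))⁻¹) ^ e)⁻¹ * c) atTop (𝓝 c) := by
      have h2 := ((((hq1.inv₀ one_ne_zero).rpow_const (p := e)
        (Or.inl (inv_ne_zero one_ne_zero)))).inv₀
        (by rw [inv_one, Real.one_rpow]; exact one_ne_zero)).mul_const c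
      simpa using h2
    obtain ⟨q, hqb, hq⟩ := ((h1.eventually (Iio_mem_nhds hb)).and
      (eventually_ge_atTop 1)).exists
    have hB := block_tendsto h hq
    have h3 : Tendsto (fun j : ℕ => (1 + 1 / (j : ℝ)) ^ (1 / (t : ℝ)) *
        ((((1 + 1 / (q : ℝ))⁻¹) ^ e)⁻¹ *
        ((∑ n ∈ Finset.Ioc (q * j) ((q + 1) * j), ratio t n) / (j : ℝ)))) atTop
        (𝓝 ((((1 + 1 / (q : ℝ))⁻¹) ^ e)⁻¹ * c)) := by
      have h4 := (hq1.rpow_const (p := 1 / (t : ℝ)) (Or.inl one_ne_zero)).mul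
        (hB.const_mul ((((1 + 1 / (q : ℝ))⁻¹) ^ e)⁻¹))
      simpa using h4
    have h5 := (h3.comp (hdiv q hq)).eventually (Iio_mem_nhds hqb)
    filter_upwards [h5, eventually_ge_atTop q] with N hN hNq
    refine lt_of_le_of_lt ?_ hN
    simp only [Function.comp]
    have hj : 1 ≤ N / q := (Nat.one_le_div_iff hq).2 hNq
    obtain ⟨-, hb2⟩ := block_bounds ht hq hj
    have hqj : 1 ≤ q * (N / q) := Nat.mul_pos hq hj
    have hle : q * (N / q) ≤ N := Nat.mul_div_le N q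
    refine le_trans (ratio_upper ht hqj hle) ?_
    refine mul_le_mul (Real.rpow_le_rpow (by positivity) (div_bounds hq hNq)
      (by positivity)) ?_ (ratio_nonneg _ _) (by positivity)
    rw [← he] at hb2
    rw [le_inv_mul_iff₀ (by positivity)]
    exact hb2

theorem final (t : ℕ) (ht : 2 ≤ t) :
    (∀ m n : ℕ, 1 ≤ m → m ≤ n →
      ((m : ℝ) / n) ^ ((2 : ℝ) - 1 / t) * ratio t m ≤ ratio t n ∧
      ratio t n ≤ ((n : ℝ) / m) ^ (1 / (t : ℝ)) * ratio t m) ∧
    (∀ x y c : ℝ, MapClusterPt x atTop (ratio t) → MapClusterPt y atTop (ratio t) →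
      x ≤ c → c ≤ y → MapClusterPt c atTop (ratio t)) ∧
    (∀ c : ℝ, Tendsto (fun N : ℕ => (∑ n ∈ Finset.Icc 1 N, ratio t n) / (N : ℝ)) atTop (𝓝 c) →
      Tendsto (ratio t) atTop (𝓝 c)) ∧
    ∀ u : ℕ → ℕ, StrictMono u →
      (∀ c : ℝ, Tendsto (fun k => (u (k + 1) : ℝ) / u k) atTop (𝓝 1) →
        Tendsto (fun k => ratio t (u k)) atTop (𝓝 c) → Tendsto (ratio t) atTop (𝓝 c)) ∧
      ∀ C c : ℝ, (∀ k, (u (k + 1) : ℝ) ≤ C * u k) → 0 < c → (∀ k, c ≤ ratio t (u k)) →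
        ∃ c' : ℝ, 0 < c' ∧ ∀ n, 1 ≤ n → c' < ratio t n :=
  ⟨(main t ht).1, (main t ht).2.1, fun _ h => mean_convergence (by omega) h, (main t ht).2.2⟩

end ZarSym
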